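import Pool.Agent.Helper491_Par.Final

/-!
# Disjoint spreads which contain nearly all the `t`-dimensional subspaces

Let `K` be a finite field with `q` elements and `t ≥ 1`. As `d → ∞` with `t + 1 ∣ d + 1`, there are
pairwise disjoint `t`-spreads of `PG(d, q)` which together contain all but a fraction `o(1)` of the
`t`-dimensional subspaces of `PG(d, q)`.
-/

set_option autoImplicit false

namespace Pool.Agent.Results.MP_3b9ee7_co.AlmostParallelism

open Module Pool.Agent.Helper491_Par

/-- A one-dimensional subspace is spanned by any of its nonzero vectors. -/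
theorem exists_span {F V : Type} [Field F] [AddCommGroup V] [Module F V] {P : Submodule F V}
    (h : finrank F P = 1) : ∃ v : V, v ≠ 0 ∧ P = Submodule.span F {v} := by
  have hne : P ≠ ⊥ := by
    rintro rfl
    rw [finrank_bot] at h
    exact zero_ne_one h
  obtain ⟨v, hv, hv0⟩ := (Submodule.ne_bot_iff P).1 hne
  have hfd : FiniteDimensional F P := finite_of_finrank_pos (by rw [h]; norm_num)
  refine ⟨v, hv0, ?_⟩
  symm
  apply Submodule.eq_of_le_of_finrank_eq
  · rw [Submodule.span_le]
    rintro x rfl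
    exact hv
  · rw [h, finrank_span_singleton hv0]

/-- For every finite field `K`, every `t ≥ 1` and every `ε > 0` there is a `d₀` such that for all
`d ≥ d₀` with `t + 1 ∣ d + 1` there are pairwise disjoint `t`-spreads `S 0, …, S (N - 1)` of
`PG(d, K)` which together contain at least the fraction `1 - ε` of all `t`-dimensional subspaces of
`PG(d, K)`. -/
theorem result :
    ∀ (K : Type) [Field K] [Fintype K] (t : ℕ), 1 ≤ t → ∀ ε : ℝ, 0 < ε →
      ∃ d₀ : ℕ, ∀ d : ℕ, d₀ ≤ d → (t + 1) ∣ (d + 1) →
        ∃ (N : ℕ) (S : Fin N → Set (Submodule K (Fin (d + 1) → K))),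
          (∀ i, ∀ W ∈ S i, Module.finrank K W = t + 1) ∧
          (∀ i, ∀ P : Submodule K (Fin (d + 1) → K), Module.finrank K P = 1 →
            ∃! W, W ∈ S i ∧ P ≤ W) ∧
          (∀ i j, i ≠ j → Disjoint (S i) (S j)) ∧
          (1 - ε) * (Set.ncard {W : Submodule K (Fin (d + 1) → K) |
              Module.finrank K W = t + 1} : ℝ) ≤
            (Set.ncard (⋃ i, S i) : ℝ) := by
  intro K _ _ t ht ε hε
  obtain ⟨n0, hn0⟩ := fraction K (t + 1) (by omega) ε hε
  refine ⟨n0, ?_⟩
  intro d hd hdvd
  have hfin : finrank K (Fin (d + 1) → K) = d + 1 := by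
    rw [finrank_fintype_fun_eq_card, Fintype.card_fin]
  obtain ⟨N, S, hS1, hS2, hS3⟩ := hn0 (d + 1) (by omega) hdvd (Fin (d + 1) → K) hfin
  refine ⟨N, S, fun i => (hS1 i).1, ?_, ?_, hS3⟩
  · intro i P hP
    obtain ⟨v, hv, rfl⟩ := exists_span hP
    simp only [Submodule.span_singleton_le_iff_mem]
    exact (hS1 i).2 v hv
  · intro i j hij
    rw [Set.disjoint_left]
    intro W h1 h2
    exact hij (hS2 i j W h1 h2)

end Pool.Agent.Results.MP_3b9ee7_co.AlmostParallelism
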