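import Pool.Agent.Helper491_Inf.Fin

/-!
# Parallelisms of the `t`-subspaces in infinitely many dimensions

For every finite field `K`, every `t ≥ 1` and every bound `x` there is an `n > 0`, divisible by
`t + 1`, such that the `t`-dimensional subspaces of `PG(d, K)` have a parallelism whenever
`d + 1 = n s` and all prime factors of `s` are at most `x`.
-/

set_option autoImplicit false

namespace Pool.Agent.Results.MP_3b9ee7_co.InfinitelyManyDimensions

open Module Pool.Agent.Helper491_Par Pool.Agent.Helper491_Inf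

/-- A one-dimensional subspace is spanned by any of its nonzero vectors. -/
theorem exists_span {F V : Type} [Field F] [AddCommGroup V] [Module F V] {P : Submodule F V}
    (h : finrank F P = 1) : ∃ v : V, v ≠ 0 ∧ P = Submodule.span F {v} := by
  have hne : P ≠ ⊥ := by
    rintro rfl
    rw [finrank_bot] at h
    exact zero_ne_one h
  obtain ⟨v, hv, hv0⟩ := (Submodule.ne_bot_iff P).1 hne
  have hfd : FiniteDimensional F P := finite_of_finrank_pos (by rw [h]; norm_num)
  refine ⟨v, hv0, ?_⟩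
  symm
  apply Submodule.eq_of_le_of_finrank_eq
  · rw [Submodule.span_le]
    rintro x rfl
    exact hv
  · rw [h, finrank_span_singleton hv0]

/-- For every finite field `K`, every `t ≥ 1` and every `x` there is a positive multiple `n` of
`t + 1` such that for every `s ≥ 1` all of whose prime factors are at most `x`, with `d + 1 = n s`,
there is an equivalence relation on the set of `t`-dimensional subspaces of `PG(d, K)` such that
every point is on exactly one member of each equivalence class. -/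
theorem result :
    ∀ (K : Type) [Field K] [Fintype K] (t x : ℕ), 1 ≤ t →
      ∃ n : ℕ, 0 < n ∧ (t + 1) ∣ n ∧
      ∀ s d : ℕ, 0 < s → (∀ p : ℕ, p.Prime → p ∣ s → p ≤ x) → d + 1 = n * s →
      ∃ R : {W : Submodule K (Fin (d + 1) → K) // Module.finrank K W = t + 1} →
            {W : Submodule K (Fin (d + 1) → K) // Module.finrank K W = t + 1} → Prop,
        Equivalence R ∧
        ∀ P : Submodule K (Fin (d + 1) → K), Module.finrank K P = 1 →
          ∀ B : {W : Submodule K (Fin (d + 1) → K) // Module.finrank K W = t + 1},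
            ∃! C : {W : Submodule K (Fin (d + 1) → K) // Module.finrank K W = t + 1},
              P ≤ C.1 ∧ R C B := by
  intro K _ _ t x ht
  obtain ⟨n, hn0, hn1, hn⟩ := smooth (Fintype.card K) (t + 1) (max x 2) Fintype.one_lt_card
    (by omega) (le_max_right _ _)
  refine ⟨n, hn0, hn1, ?_⟩
  intro s d hs hsx hd
  -- the field
  obtain ⟨p, hp⟩ := CharP.exists K
  have hpp : Fact p.Prime := ⟨CharP.char_is_prime K p⟩
  have hnne : NeZero (n * s) := ⟨(Nat.mul_pos hn0 hs).ne'⟩
  let L := FiniteField.Extension K p (n * s)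
  have hfL : finrank K L = n * s := FiniteField.finrank_extension K p (n * s)
  have hLf : Fintype L := Fintype.ofFinite L
  have hfdL : FiniteDimensional K L := Module.Finite.of_finite
  have hfin : finrank K (Fin (d + 1) → K) = d + 1 := by
    rw [finrank_fintype_fun_eq_card, Fintype.card_fin]
  let e : (Fin (d + 1) → K) ≃ₗ[K] L := LinearEquiv.ofFinrankEq _ _ (by rw [hfin, hd, hfL])
  obtain ⟨P, hP1, hP2⟩ := hn s hs (fun r hr hrs => (hsx r hr hrs).trans (le_max_left _ _)) K L rfl hfL
  have hfr : ∀ W : Submodule K (Fin (d + 1) → K),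
      finrank K (W.map (e : (Fin (d + 1) → K) →ₗ[K] L)) = finrank K W :=
    fun W => LinearEquiv.finrank_map_eq e W
  refine ⟨fun W W' => ∃ S ∈ P, W.1.map (e : (Fin (d + 1) → K) →ₗ[K] L) ∈ S ∧
    W'.1.map (e : (Fin (d + 1) → K) →ₗ[K] L) ∈ S, ⟨?_, ?_, ?_⟩, ?_⟩
  · intro W
    obtain ⟨S, ⟨h1, h2⟩, -⟩ := hP2 (W.1.map (e : (Fin (d + 1) → K) →ₗ[K] L)) ((hfr W.1).trans W.2)
    exact ⟨S, h1, h2, h2⟩
  · rintro W W' ⟨S, h1, h2, h3⟩
    exact ⟨S, h1, h3, h2⟩
  · rintro W W' W'' ⟨S, h1, h2, h3⟩ ⟨S', h1', h2', h3'⟩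
    obtain ⟨S0, -, hu⟩ := hP2 (W'.1.map (e : (Fin (d + 1) → K) →ₗ[K] L)) ((hfr W'.1).trans W'.2)
    have e1 := hu S ⟨h1, h3⟩
    have e2 := hu S' ⟨h1', h2'⟩
    rw [e1] at h1 h2
    rw [e2] at h3'
    exact ⟨S0, h1, h2, h3'⟩
  · intro Q hQ B
    obtain ⟨v, hv, rfl⟩ := exists_span hQ
    obtain ⟨S, ⟨hS, hBS⟩, hu⟩ := hP2 (B.1.map (e : (Fin (d + 1) → K) →ₗ[K] L)) ((hfr B.1).trans B.2)
    have hev : e v ≠ 0 := fun h0 => hv (by simpa using h0)
    obtain ⟨W, ⟨hW, hvW⟩, hWu⟩ := (hP1 S hS).1.2 (e v) hev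
    have hWm : (W.comap (e : (Fin (d + 1) → K) →ₗ[K] L)).map (e : (Fin (d + 1) → K) →ₗ[K] L) = W :=
      Submodule.map_comap_eq_of_surjective e.surjective W
    have hWk : finrank K (W.comap (e : (Fin (d + 1) → K) →ₗ[K] L)) = t + 1 := by
      rw [← hfr, hWm]
      exact (hP1 S hS).1.1 W hW
    refine ⟨⟨W.comap (e : (Fin (d + 1) → K) →ₗ[K] L), hWk⟩, ⟨?_, S, hS, ?_, hBS⟩, ?_⟩
    · rw [Submodule.span_singleton_le_iff_mem]
      exact hvW
    · show (W.comap (e : (Fin (d + 1) → K) →ₗ[K] L)).map (e : (Fin (d + 1) → K) →ₗ[K] L) ∈ S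
      rw [hWm]
      exact hW
    · rintro ⟨C, hC⟩ ⟨h1, S', hS', h2, h3⟩
      have e1 := hu S' ⟨hS', h3⟩
      rw [e1] at h2
      have h4 : C.map (e : (Fin (d + 1) → K) →ₗ[K] L) = W := by
        apply hWu
        refine ⟨h2, v, ?_, rfl⟩
        rw [Submodule.span_singleton_le_iff_mem] at h1
        exact h1
      apply Subtype.ext
      show C = W.comap (e : (Fin (d + 1) → K) →ₗ[K] L)
      rw [← h4]
      exact (Submodule.comap_map_eq_of_injective e.injective C).symm

end Pool.Agent.Results.MP_3b9ee7_co.InfinitelyManyDimensions
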