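import Pool.Agent.Helper491_Par.TG

/-!
# Line parallelisms

For every finite field `K` and every odd `d`, the lines of `PG(d, K)` have a parallelism: the case
`t = 1` of the problem, in the form of the frozen statement.
-/

set_option autoImplicit false

namespace Pool.Agent.Results.MP_3b9ee7_co.LineParallelism

open Module Pool.Agent.Helper491_Par

/-- A one-dimensional subspace is spanned by any of its nonzero vectors. -/
theorem exists_span {F V : Type} [Field F] [AddCommGroup V] [Module F V] {P : Submodule F V}
    (h : finrank F P = 1) : ∃ v : V, v ≠ 0 ∧ P = Submodule.span F {v} := by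
  have hne : P ≠ ⊥ := by
    rintro rfl
    rw [finrank_bot] at h
    exact zero_ne_one h
  obtain ⟨v, hv, hv0⟩ := (Submodule.ne_bot_iff P).1 hne
  have hfd : FiniteDimensional F P := finite_of_finrank_pos (by rw [h]; norm_num)
  refine ⟨v, hv0, ?_⟩
  symm
  apply Submodule.eq_of_le_of_finrank_eq
  · rw [Submodule.span_le]
    rintro x rfl
    exact hv
  · rw [h, finrank_span_singleton hv0]

/-- For every finite field `K` and every `d` with `2 ∣ d + 1` there is an equivalence relation on
the set of lines of `PG(d, K)` such that every point of `PG(d, K)` is on exactly one member of each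
equivalence class. -/
theorem result :
    ∀ (K : Type) [Field K] [Fintype K] (d : ℕ), 2 ∣ (d + 1) →
      ∃ R : {W : Submodule K (Fin (d + 1) → K) // Module.finrank K W = 2} →
            {W : Submodule K (Fin (d + 1) → K) // Module.finrank K W = 2} → Prop,
        Equivalence R ∧
        ∀ P : Submodule K (Fin (d + 1) → K), Module.finrank K P = 1 →
          ∀ B : {W : Submodule K (Fin (d + 1) → K) // Module.finrank K W = 2},
            ∃! C : {W : Submodule K (Fin (d + 1) → K) // Module.finrank K W = 2},
              P ≤ C.1 ∧ R C B := by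
  intro K _ _ d hd
  have hfin : finrank K (Fin (d + 1) → K) = d + 1 := by
    rw [finrank_fintype_fun_eq_card, Fintype.card_fin]
  obtain ⟨C, c, hc⟩ := LP.main K (d + 1) (Nat.succ_pos d) hd (Fin (d + 1) → K) hfin
  refine ⟨fun W W' => c W.1 = c W'.1, ⟨fun _ => rfl, fun h => h.symm, fun h h' => h.trans h'⟩, ?_⟩
  intro P hP B
  obtain ⟨v, hv, rfl⟩ := exists_span hP
  obtain ⟨W, ⟨h1, h2, h3⟩, hu⟩ := hc v hv (c B.1)
  refine ⟨⟨W, h1⟩, ⟨?_, h3⟩, ?_⟩
  · rw [Submodule.span_singleton_le_iff_mem]
    exact h2
  · rintro ⟨W', hW'⟩ ⟨h4, h5⟩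
    apply Subtype.ext
    apply hu
    refine ⟨hW', ?_, h5⟩
    rw [Submodule.span_singleton_le_iff_mem] at h4
    exact h4

end Pool.Agent.Results.MP_3b9ee7_co.LineParallelism
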